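import Mathlib
import Pool.Agent.H168R4.AC

/-!
# MP_6fec45_co, Q1, downward closed sets

If `A ⊆ 𝔽₂ⁿ` has an additive complement of size `K` and `2A` is downward closed in some basis (for
instance if `A` is a translate of a set which is downward closed in some basis), then `2A` contains a
subspace of codimension at most `K - 1`.
-/

set_option autoImplicit false

namespace Pool.Agent.Results.MP_6fec45_co.DownwardClosed

open Pointwise Module Pool.Agent.H168R4.AC

/-- Let `A ⊆ 𝔽₂ⁿ` have an additive complement `S`, and let `b` be any basis of `𝔽₂ⁿ`. If `2A` is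
downward closed in `b`, or if `A` is a translate of a set which is downward closed in `b`, then `2A`
contains a subspace of codimension at most `|S| - 1`. -/
theorem result (n : ℕ) (b : Basis (Fin n) (ZMod 2) (F2 n)) (A : Set (F2 n)) (S : Finset (F2 n))
    (hAS : A + (S : Set (F2 n)) = Set.univ)
    (hA : DownClosed b (A + A) ∨
      ∃ (t : F2 n) (D : Set (F2 n)), DownClosed b D ∧ A = (fun x => t + x) '' D) :
    ∃ W : Submodule (ZMod 2) (F2 n), (W : Set (F2 n)) ⊆ A + A ∧
      n + 1 ≤ Module.finrank (ZMod 2) W + S.card := by
  have hD : DownClosed b (A + A) := by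
    rcases hA with h | ⟨t, D, hD, hA⟩
    · exact h
    · rw [translate A t D hA]
      exact sum_down b D hD
  obtain ⟨x, hx, hw⟩ := long_vector b A S hAS
  obtain ⟨W, hW, hf⟩ := exists_sub b _ hD x hx
  exact ⟨W, hW, by rw [hf]; exact hw⟩

end Pool.Agent.Results.MP_6fec45_co.DownwardClosed
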