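import Mathlib
import Pool.Agent.H168R4.AC

/-!
# MP_6fec45_co, Q1, symmetric sets

If `A ⊆ 𝔽₂ⁿ` has an additive complement of size `K` and `A` is a translate of a set which is invariant
under the permutations of some basis, then `2A` contains a subspace of codimension at most `2^K + 1`.
-/

set_option autoImplicit false

namespace Pool.Agent.Results.MP_6fec45_co.SymmetricSets

open Pointwise Module Pool.Agent.H168R4.AC

/-- Let `A ⊆ 𝔽₂ⁿ` have an additive complement `S`, and let `b` be any basis of `𝔽₂ⁿ`. If `A` is a
translate of a set `D` for which membership depends only on the number of nonzero coordinates in `b`,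
then `2A` contains a subspace of codimension at most `2^|S| + 1`. -/
theorem result (n : ℕ) (b : Basis (Fin n) (ZMod 2) (F2 n)) (A : Set (F2 n)) (S : Finset (F2 n))
    (hAS : A + (S : Set (F2 n)) = Set.univ) (t : F2 n) (D : Set (F2 n))
    (hD : ∀ x ∈ D, ∀ y : F2 n, weight b y = weight b x → y ∈ D)
    (hA : A = (fun x => t + x) '' D) :
    ∃ W : Submodule (ZMod 2) (F2 n), (W : Set (F2 n)) ⊆ A + A ∧
      n ≤ Module.finrank (ZMod 2) W + 2 ^ S.card + 1 := by
  classical
  rw [translate A t D hA]
  have hcard : (S.image (fun s => t + s)).card = S.card :=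
    Finset.card_image_of_injective _ (add_right_injective t)
  rw [← hcard]
  refine symmetric_case b D _ ?_ hD
  rw [Set.eq_univ_iff_forall]
  intro x
  have hx : x ∈ A + (S : Set (F2 n)) := by rw [hAS]; trivial
  obtain ⟨a, ha, s, hs, rfl⟩ := hx
  rw [hA] at ha
  obtain ⟨d, hd, rfl⟩ := ha
  refine ⟨d, hd, t + s, ?_, ?_⟩
  · rw [Finset.coe_image]
    exact ⟨s, hs, rfl⟩
  · show d + (t + s) = t + d + s
    abel

end Pool.Agent.Results.MP_6fec45_co.SymmetricSets
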